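import Pool.Agent.Q240.KS.Stm2

/-!
# Oppermann's conjecture: the number of exceptions, from few poor intervals

`MAINP lam0 e0` is from the starting library (project KS / KT): few poor intervals for primes.
-/

set_option autoImplicit false

namespace Pool.Agent.T9h59.OP

open Finset Pool.Agent.Q240.KS

/-- the number of primes strictly between `a` and `b` -/
def between (a b : ℕ) : ℕ := ((Ioo a b).filter Nat.Prime).card

/-- Oppermann's conjecture at `x`, with a lower bound of the expected order: both intervals `(x² - x, x²)` and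
`(x², x² + x)` contain at least `c x / log x` primes. -/
def Opp (c : ℝ) (x : ℕ) : Prop :=
  c * x / Real.log x ≤ between (x ^ 2 - x) (x ^ 2) ∧ c * x / Real.log x ≤ between (x ^ 2) (x ^ 2 + x)

/-- for `x ≥ 2` and `c > 0` both intervals contain a prime -/
theorem Opp.primes {c : ℝ} (hc : 0 < c) {x : ℕ} (hx : 2 ≤ x) (h : Opp c x) :
    (∃ p : ℕ, p.Prime ∧ x ^ 2 - x < p ∧ p < x ^ 2) ∧ ∃ p : ℕ, p.Prime ∧ x ^ 2 < p ∧ p < x ^ 2 + x := by
  have hx' : (1 : ℝ) < x := by exact_mod_cast (by omega : 1 < x)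
  have h1 : 0 < c * x / Real.log x := div_pos (mul_pos hc (by linarith)) (Real.log_pos hx')
  have key : ∀ a b : ℕ, c * x / Real.log x ≤ between a b → ∃ p : ℕ, p.Prime ∧ a < p ∧ p < b := by
    intro a b hab
    have h2 : 0 < between a b := by
      have : (0 : ℝ) < between a b := lt_of_lt_of_le h1 hab
      exact_mod_cast this
    obtain ⟨p, hp⟩ := Finset.card_pos.1 h2
    rw [mem_filter, mem_Ioo] at hp
    exact ⟨p, hp.2, hp.1.1, hp.1.2⟩
  exact ⟨key _ _ h.1, key _ _ h.2⟩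

lemma pic_le (a x : ℕ) (h : ℝ) (h0 : 0 ≤ h) (hx : h < x) : pic (a : ℝ) h ≤ between a (a + x) := by
  unfold pic between
  apply card_le_card
  intro p hp
  rw [mem_filter, mem_Ioc] at hp
  rw [mem_filter, mem_Ioo]
  rw [Nat.floor_natCast] at hp
  refine ⟨⟨hp.1.1, ?_⟩, hp.2⟩
  refine lt_of_le_of_lt hp.1.2 ?_
  rw [Nat.floor_lt (by positivity)]
  push_cast
  linarith

lemma exp_quarter : Real.exp (1 / 4) ≤ 13 / 10 := by
  have h1 : Real.exp (1 / 4) ^ 4 = Real.exp 1 := by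
    rw [← Real.exp_nat_mul]
    norm_num
  have h2 := Real.exp_one_lt_d9
  by_contra hcon
  push Not at hcon
  have h3 : (13 / 10 : ℝ) ^ 4 < Real.exp (1 / 4) ^ 4 := pow_lt_pow_left₀ hcon (by norm_num) (by norm_num)
  rw [h1] at h3
  norm_num at h3
  linarith

/-- one block -/
lemma block {e0 c₀ η Y₀ : ℝ} (hc₀ : 0 < c₀) (hη : 0 < η)
    (hM : ∀ Y : ℝ, Y₀ ≤ Y → ∀ h : ℝ,
      Real.exp ((1 - 1 / 2 - η) * Y) ≤ h → h ≤ Real.exp (0.9 * Y) → ∀ U : Finset ℝ,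
      (∀ y ∈ U, 0 < y ∧ |Real.log y - Y| ≤ 2 / 5 ∧ (pic y h : ℝ) < c₀ * h / Y) →
      (∀ y ∈ U, ∀ y' ∈ U, y ≠ y' → h ≤ |y - y'|) → (U.card : ℝ) ≤ Real.exp ((e0 - η) * Y))
    (a : ℕ → ℕ) (ha : ∀ x, x ^ 2 - x ≤ a x ∧ a x ≤ x ^ 2) (hsep : ∀ x x', x < x' → a x + x ≤ a x')
    (j : ℕ) (hj : 40 ≤ j) (hjY : Y₀ ≤ (j : ℝ) / 2 + 1 / 4) (hjη : 1 ≤ η * ((j : ℝ) / 2 + 1 / 4))
    (B : Finset ℕ) (hB : ∀ x ∈ B, (j : ℝ) ≤ 4 * Real.log x ∧ 4 * Real.log x < j + 1 ∧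
      ((between (a x) (a x + x) : ℕ) : ℝ) < c₀ / 16 * x / Real.log x) :
    (B.card : ℝ) ≤ Real.exp (e0 * ((j : ℝ) / 2 + 1 / 4)) := by
  classical
  have hj' : (40 : ℝ) ≤ j := by exact_mod_cast hj
  obtain ⟨Y, hY⟩ : ∃ Y : ℝ, Y = (j : ℝ) / 2 + 1 / 4 := ⟨_, rfl⟩
  rw [← hY] at hjY hjη ⊢
  have hY0 : 0 < Y := by rw [hY]; linarith
  obtain ⟨h, hh⟩ : ∃ h : ℝ, h = Real.exp (j / 4) / 2 := ⟨_, rfl⟩
  have hh0 : 0 < h := by rw [hh]; positivity
  have hlog2 := Real.log_two_lt_d9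
  have hhe : h = Real.exp (j / 4 - Real.log 2) := by
    rw [hh, Real.exp_sub, Real.exp_log (by norm_num)]
  -- the elements of the block
  have hx : ∀ x ∈ B, 0 < x ∧ 2 * h ≤ x ∧ (x : ℝ) ≤ 13 / 10 * (2 * h) ∧ (11 : ℝ) ≤ x := by
    intro x hxB
    obtain ⟨h1, h2, -⟩ := hB x hxB
    have hx0 : 0 < x := by
      rcases Nat.eq_zero_or_pos x with h0 | h0
      · rw [h0, Nat.cast_zero, Real.log_zero] at h1
        linarith
      · exact h0
    have hx0' : (0 : ℝ) < x := by exact_mod_cast hx0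
    have h3 : Real.exp (j / 4) ≤ x := by
      rw [← Real.le_log_iff_exp_le hx0']
      linarith
    have h4 : (x : ℝ) < Real.exp ((j + 1) / 4) := by
      rw [← Real.log_lt_iff_lt_exp hx0']
      linarith
    have h5 : Real.exp (((j : ℝ) + 1) / 4) = Real.exp (j / 4) * Real.exp (1 / 4) := by
      rw [← Real.exp_add]
      congr 1
      ring
    have h6 : 2 * h = Real.exp (j / 4) := by rw [hh]; ring
    refine ⟨hx0, by rw [h6]; exact h3, ?_, ?_⟩
    · rw [h6]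
      rw [h5] at h4
      have := mul_le_mul_of_nonneg_left exp_quarter (Real.exp_nonneg ((j : ℝ) / 4))
      linarith
    · have h7 := Real.add_one_le_exp ((j : ℝ) / 4)
      linarith
  have hax : ∀ x ∈ B, 0 < (a x : ℝ) ∧ |Real.log (a x) - Y| ≤ 2 / 5 := by
    intro x hxB
    obtain ⟨h1, h2, -⟩ := hB x hxB
    obtain ⟨hx0, -, -, hx11⟩ := hx x hxB
    obtain ⟨ha1, ha2⟩ := ha x
    have hx0' : (0 : ℝ) < x := by exact_mod_cast hx0
    have hle : x ≤ x ^ 2 := Nat.le_self_pow (by norm_num) x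
    have h3 : (x : ℝ) ^ 2 - x ≤ a x := by
      have : ((x ^ 2 - x : ℕ) : ℝ) ≤ a x := by exact_mod_cast ha1
      rw [Nat.cast_sub hle] at this
      push_cast at this
      exact this
    have h4 : (a x : ℝ) ≤ (x : ℝ) ^ 2 := by exact_mod_cast ha2
    have h5 : 9 / 10 * (x : ℝ) ^ 2 ≤ a x := by nlinarith
    have h6 : (0 : ℝ) < a x := lt_of_lt_of_le (by positivity) h5
    refine ⟨h6, ?_⟩
    have h7 := Real.log_le_log h6 h4
    rw [Real.log_pow] at h7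
    have h8 := Real.log_le_log (by positivity) h5
    rw [Real.log_mul (by norm_num) (by positivity), Real.log_pow] at h8
    have h9 := Real.one_sub_inv_le_log_of_pos (show (0 : ℝ) < 9 / 10 by norm_num)
    push_cast at h7 h8
    norm_num at h9
    rw [abs_le, hY]
    constructor <;> linarith
  have hinj : Set.InjOn (fun x : ℕ => (a x : ℝ)) B := by
    intro x hxB y hyB hxy
    simp only at hxy
    have hxy' : a x = a y := by exact_mod_cast hxy
    by_contra hne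
    have hx0 := (hx x hxB).1
    have hy0 := (hx y hyB).1
    rcases Nat.lt_or_gt_of_ne hne with h1 | h1
    · have := hsep x y h1
      omega
    · have := hsep y x h1
      omega
  have hcard : (B.image (fun x : ℕ => (a x : ℝ))).card = B.card := card_image_of_injOn hinj
  rw [← hcard]
  have hfin := hM Y hjY h (by
      rw [hhe]
      apply Real.exp_le_exp.2
      rw [hY] at hjη ⊢
      linarith) (by
      rw [hhe]
      apply Real.exp_le_exp.2
      have := Real.log_two_gt_d9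
      rw [hY]
      linarith) (B.image (fun x : ℕ => (a x : ℝ))) (by
      intro y hy
      obtain ⟨x, hxB, rfl⟩ := mem_image.1 hy
      obtain ⟨h1, h2⟩ := hax x hxB
      refine ⟨h1, h2, ?_⟩
      obtain ⟨hx0, hx1, hx2, hx3⟩ := hx x hxB
      obtain ⟨h3, h4, h5⟩ := hB x hxB
      have h6 : (pic (a x : ℝ) h : ℝ) ≤ between (a x) (a x + x) := by
        exact_mod_cast pic_le (a x) x h hh0.le (by linarith)
      refine lt_of_lt_of_le (lt_of_le_of_lt h6 h5) ?_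
      have hlx : 0 < Real.log x := by linarith
      rw [div_le_div_iff₀ hlx hY0]
      have h7 : c₀ / 16 * (x : ℝ) ≤ c₀ / 16 * (13 / 10 * (2 * h)) :=
        mul_le_mul_of_nonneg_left hx2 (by positivity)
      have h8 : Y ≤ 4 * Real.log x := by rw [hY]; linarith
      calc c₀ / 16 * (x : ℝ) * Y ≤ c₀ / 16 * (13 / 10 * (2 * h)) * (4 * Real.log x) :=
            mul_le_mul h7 h8 hY0.le (by positivity)
        _ = (13 / 20) * (c₀ * h * Real.log x) := by ring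
        _ ≤ c₀ * h * Real.log x := by
            have : 0 < c₀ * h * Real.log x := by positivity
            linarith) (by
      intro y hy y' hy' hne
      obtain ⟨x, hxB, rfl⟩ := mem_image.1 hy
      obtain ⟨x', hxB', rfl⟩ := mem_image.1 hy'
      have hxx : x ≠ x' := fun h0 => hne (by rw [h0])
      have e1 : ∀ z z' : ℕ, z ∈ B → z < z' → h ≤ (a z' : ℝ) - a z := by
        intro z z' hz hzz
        have h1 := hsep z z' hzz
        have h2 : (a z : ℝ) + z ≤ a z' := by exact_mod_cast h1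
        have h3 := (hx z hz).2.1
        linarith
      rcases Nat.lt_or_gt_of_ne hxx with h1 | h1
      · have := e1 x x' hxB h1
        rw [abs_sub_comm]
        exact this.trans (le_abs_self _)
      · have := e1 x' x hxB' h1
        exact this.trans (le_abs_self _))
  refine hfin.trans (Real.exp_le_exp.2 ?_)
  exact mul_le_mul_of_nonneg_right (by linarith) hY0.le

theorem count_of {e0 : ℝ} (he : 0 ≤ e0) (hM : MAINP (1 / 2) e0) : ∃ c : ℝ, 0 < c ∧ ∀ δ : ℝ, 0 < δ → ∃ C : ℝ,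
    ∀ X : ℕ, 1 ≤ X → ({x : ℕ | 1 ≤ x ∧ x ≤ X ∧ True ∧ ¬ Opp c x}.ncard : ℝ) ≤ C * (X : ℝ) ^ (2 * e0 + δ) := by
  classical
  obtain ⟨c₀, η, Y₀, hc₀, hη, hM⟩ := hM
  refine ⟨c₀ / 16, by positivity, fun δ hδ => ?_⟩
  obtain ⟨j₀, hj₀⟩ : ∃ j₀ : ℕ, (40 : ℝ) + 2 * |Y₀| + 2 / η ≤ j₀ := ⟨_, Nat.le_ceil _⟩
  have hη2 : 0 < 2 / η := by positivity
  have hjj : ∀ j : ℕ, j₀ ≤ j → 40 ≤ j ∧ Y₀ ≤ (j : ℝ) / 2 + 1 / 4 ∧ 1 ≤ η * ((j : ℝ) / 2 + 1 / 4) := by
    intro j hj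
    have hj' : (j₀ : ℝ) ≤ j := by exact_mod_cast hj
    have habs := abs_nonneg Y₀
    refine ⟨?_, ?_, ?_⟩
    · have : (40 : ℝ) ≤ j := by linarith
      exact_mod_cast this
    · have := le_abs_self Y₀
      linarith
    · have h1 : 1 / η ≤ (j : ℝ) / 2 + 1 / 4 := by
        have : 2 / η = 2 * (1 / η) := by ring
        linarith
      rw [div_le_iff₀ hη] at h1
      linarith
  refine ⟨Real.exp (j₀ / 4) + 1 + 2 * (1 + 4 / δ) * Real.exp (e0 / 4), fun X hX => ?_⟩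
  have hX1 : (1 : ℝ) ≤ X := by exact_mod_cast hX
  have hlogX : 0 ≤ Real.log X := Real.log_nonneg hX1
  set bad1 : ℕ → Finset ℕ := fun j => (Icc 1 X).filter (fun x : ℕ => ⌊4 * Real.log x⌋₊ = j ∧
    ((between (x ^ 2 - x) (x ^ 2) : ℕ) : ℝ) < c₀ / 16 * x / Real.log x) with hbad1
  set bad2 : ℕ → Finset ℕ := fun j => (Icc 1 X).filter (fun x : ℕ => ⌊4 * Real.log x⌋₊ = j ∧
    ((between (x ^ 2) (x ^ 2 + x) : ℕ) : ℝ) < c₀ / 16 * x / Real.log x) with hbad2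
  set J : ℕ := ⌊4 * Real.log X⌋₊ with hJ
  have hfl : ∀ (x j : ℕ), 1 ≤ x → ⌊4 * Real.log x⌋₊ = j → (j : ℝ) ≤ 4 * Real.log x ∧ 4 * Real.log x < j + 1 := by
    intro x j hx hxj
    have h0 : 0 ≤ 4 * Real.log x := mul_nonneg (by norm_num) (Real.log_nonneg (by exact_mod_cast hx))
    rw [← hxj]
    exact ⟨Nat.floor_le h0, Nat.lt_floor_add_one _⟩
  have hb1 : ∀ j, j₀ ≤ j → ((bad1 j).card : ℝ) ≤ Real.exp (e0 * ((j : ℝ) / 2 + 1 / 4)) := by
    intro j hj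
    obtain ⟨h1, h2, h3⟩ := hjj j hj
    refine block hc₀ hη hM (fun x => x ^ 2 - x) (fun x => ⟨le_rfl, Nat.sub_le _ _⟩) ?_ j h1 h2 h3 (bad1 j) ?_
    · intro x x' hxx
      have e1 : x ^ 2 - x + x = x ^ 2 := Nat.sub_add_cancel (Nat.le_self_pow (by norm_num) x)
      rw [e1]
      have e2 : x' ^ 2 - x' = x' * (x' - 1) := by
        rw [Nat.mul_sub, mul_one, sq]
      rw [e2, sq]
      exact Nat.mul_le_mul (by omega) (by omega)
    · intro x hx
      rw [hbad1] at hx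
      simp only [mem_filter, mem_Icc] at hx
      obtain ⟨⟨hx1, hx2⟩, hx3, hx4⟩ := hx
      have e1 : x ^ 2 - x + x = x ^ 2 := Nat.sub_add_cancel (Nat.le_self_pow (by norm_num) x)
      refine ⟨(hfl x j hx1 hx3).1, (hfl x j hx1 hx3).2, ?_⟩
      rw [e1]
      exact hx4
  have hb2 : ∀ j, j₀ ≤ j → ((bad2 j).card : ℝ) ≤ Real.exp (e0 * ((j : ℝ) / 2 + 1 / 4)) := by
    intro j hj
    obtain ⟨h1, h2, h3⟩ := hjj j hj
    refine block hc₀ hη hM (fun x => x ^ 2) (fun x => ⟨Nat.sub_le _ _, le_rfl⟩) ?_ j h1 h2 h3 (bad2 j) ?_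
    · intro x x' hxx
      have : (x + 1) ^ 2 ≤ x' ^ 2 := Nat.pow_le_pow_left hxx 2
      nlinarith
    · intro x hx
      rw [hbad2] at hx
      simp only [mem_filter, mem_Icc] at hx
      obtain ⟨⟨hx1, hx2⟩, hx3, hx4⟩ := hx
      exact ⟨(hfl x j hx1 hx3).1, (hfl x j hx1 hx3).2, hx4⟩
  have hsub : {x : ℕ | 1 ≤ x ∧ x ≤ X ∧ True ∧ ¬ Opp (c₀ / 16) x} ⊆
      ((Icc 1 ⌊Real.exp (j₀ / 4)⌋₊ ∪ (Icc j₀ J).biUnion (fun j => bad1 j ∪ bad2 j) : Finset ℕ) : Set ℕ) := by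
    rintro x ⟨hx1, hxX, -, hxo⟩
    rw [mem_coe, mem_union]
    have hx0 : (0 : ℝ) < x := by exact_mod_cast hx1
    have h0 : 0 ≤ 4 * Real.log x := mul_nonneg (by norm_num) (Real.log_nonneg (by exact_mod_cast hx1))
    by_cases hlt : ⌊4 * Real.log x⌋₊ < j₀
    · left
      rw [mem_Icc]
      refine ⟨hx1, Nat.le_floor ?_⟩
      have h1 := Nat.lt_floor_add_one (4 * Real.log x)
      have h2 : ((⌊4 * Real.log x⌋₊ : ℕ) : ℝ) + 1 ≤ j₀ := by exact_mod_cast hlt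
      rw [← Real.log_le_iff_le_exp hx0]
      linarith
    · right
      push Not at hlt
      rw [mem_biUnion]
      refine ⟨⌊4 * Real.log x⌋₊, ?_, ?_⟩
      · rw [mem_Icc]
        refine ⟨hlt, ?_⟩
        apply Nat.floor_le_floor
        have : Real.log x ≤ Real.log X := Real.log_le_log hx0 (by exact_mod_cast hxX)
        linarith
      · rw [mem_union]
        unfold Opp at hxo
        rw [not_and_or, not_le, not_le] at hxo
        rcases hxo with h1 | h1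
        · left
          exact mem_filter.2 ⟨mem_Icc.2 ⟨hx1, hxX⟩, rfl, h1⟩
        · right
          exact mem_filter.2 ⟨mem_Icc.2 ⟨hx1, hxX⟩, rfl, h1⟩
  have h1 := Set.ncard_le_ncard hsub (finite_toSet _)
  rw [Set.ncard_coe_finset] at h1
  have h2 := card_union_le (Icc 1 ⌊Real.exp (j₀ / 4)⌋₊) ((Icc j₀ J).biUnion (fun j => bad1 j ∪ bad2 j))
  have h3 : ((((Icc j₀ J).biUnion (fun j => bad1 j ∪ bad2 j)).card : ℕ) : ℝ) ≤
      ∑ j ∈ Icc j₀ J, 2 * Real.exp (e0 * (2 * Real.log X + 1 / 4)) := by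
    have h4 : ((((Icc j₀ J).biUnion (fun j => bad1 j ∪ bad2 j)).card : ℕ) : ℝ) ≤
        ∑ j ∈ Icc j₀ J, (((bad1 j ∪ bad2 j).card : ℕ) : ℝ) := by exact_mod_cast card_biUnion_le
    refine h4.trans (sum_le_sum fun j hj => ?_)
    rw [mem_Icc] at hj
    have h5 : (((bad1 j ∪ bad2 j).card : ℕ) : ℝ) ≤ (bad1 j).card + (bad2 j).card := by
      exact_mod_cast card_union_le _ _
    have hjJ : (j : ℝ) ≤ 4 * Real.log X := by
      have h6 : (j : ℝ) ≤ J := by exact_mod_cast hj.2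
      exact h6.trans (Nat.floor_le (by positivity))
    have h7 : Real.exp (e0 * ((j : ℝ) / 2 + 1 / 4)) ≤ Real.exp (e0 * (2 * Real.log X + 1 / 4)) := by
      apply Real.exp_le_exp.2
      apply mul_le_mul_of_nonneg_left _ he
      linarith
    have h8 := hb1 j hj.1
    have h9 := hb2 j hj.1
    linarith
  rw [sum_const, nsmul_eq_mul, Nat.card_Icc] at h3
  have h4 : ((J + 1 - j₀ : ℕ) : ℝ) ≤ 4 * Real.log X + 1 := by
    have h5 : ((J + 1 - j₀ : ℕ) : ℝ) ≤ J + 1 := by exact_mod_cast Nat.sub_le _ _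
    have h6 : (J : ℝ) ≤ 4 * Real.log X := Nat.floor_le (by positivity)
    linarith
  have h5 : Real.exp (e0 * (2 * Real.log X + 1 / 4)) = Real.exp (e0 / 4) * (X : ℝ) ^ (2 * e0) := by
    rw [Real.rpow_def_of_pos (by linarith), ← Real.exp_add]
    congr 1
    ring
  have h6 : 4 * Real.log X + 1 ≤ (1 + 4 / δ) * (X : ℝ) ^ δ := by
    have h7 := Real.log_le_rpow_div (by linarith : (0 : ℝ) ≤ X) hδ
    have h8 : (1 : ℝ) ≤ (X : ℝ) ^ δ := Real.one_le_rpow hX1 hδ.le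
    have h9 : (X : ℝ) ^ δ / δ * 4 = 4 / δ * (X : ℝ) ^ δ := by ring
    rw [add_mul, one_mul]
    linarith
  have h7 : (1 : ℝ) ≤ (X : ℝ) ^ (2 * e0 + δ) := Real.one_le_rpow hX1 (by positivity)
  have h8 : ((Icc 1 ⌊Real.exp (j₀ / 4)⌋₊).card : ℝ) ≤ Real.exp (j₀ / 4) := by
    rw [Nat.card_Icc, Nat.add_sub_cancel]
    exact Nat.floor_le (Real.exp_nonneg _)
  have h9 : (X : ℝ) ^ (2 * e0 + δ) = (X : ℝ) ^ (2 * e0) * (X : ℝ) ^ δ := Real.rpow_add (by linarith) _ _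
  have h10 : ({x : ℕ | 1 ≤ x ∧ x ≤ X ∧ True ∧ ¬ Opp (c₀ / 16) x}.ncard : ℝ) ≤
      Real.exp (j₀ / 4) + (4 * Real.log X + 1) * (2 * (Real.exp (e0 / 4) * (X : ℝ) ^ (2 * e0))) := by
    have e1 : ({x : ℕ | 1 ≤ x ∧ x ≤ X ∧ True ∧ ¬ Opp (c₀ / 16) x}.ncard : ℝ) ≤
        (Icc 1 ⌊Real.exp (j₀ / 4)⌋₊).card + ((Icc j₀ J).biUnion (fun j => bad1 j ∪ bad2 j)).card := by
      exact_mod_cast h1.trans h2
    rw [h5] at h3
    have e2 : ((J + 1 - j₀ : ℕ) : ℝ) * (2 * (Real.exp (e0 / 4) * (X : ℝ) ^ (2 * e0))) ≤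
        (4 * Real.log X + 1) * (2 * (Real.exp (e0 / 4) * (X : ℝ) ^ (2 * e0))) :=
      mul_le_mul_of_nonneg_right h4 (by positivity)
    linarith
  refine h10.trans ?_
  have e1 : (4 * Real.log X + 1) * (2 * (Real.exp (e0 / 4) * (X : ℝ) ^ (2 * e0))) ≤
      ((1 + 4 / δ) * (X : ℝ) ^ δ) * (2 * (Real.exp (e0 / 4) * (X : ℝ) ^ (2 * e0))) :=
    mul_le_mul_of_nonneg_right h6 (by positivity)
  have e2 : ((1 + 4 / δ) * (X : ℝ) ^ δ) * (2 * (Real.exp (e0 / 4) * (X : ℝ) ^ (2 * e0))) =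
      2 * (1 + 4 / δ) * Real.exp (e0 / 4) * (X : ℝ) ^ (2 * e0 + δ) := by
    rw [h9]
    ring
  have e3 : Real.exp (j₀ / 4) ≤ (Real.exp (j₀ / 4) + 1) * (X : ℝ) ^ (2 * e0 + δ) := by
    have := Real.exp_nonneg ((j₀ : ℝ) / 4)
    nlinarith
  rw [add_mul]
  linarith

end Pool.Agent.T9h59.OP
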