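import Pool.Agent.Q278.KT.Fin
import Pool.Agent.T9h59.OP.Cnt

/-!
# Oppermann's conjecture: the number of exceptions, from few poor intervals

`Pool.Agent.Q278.KT.mainp_half` (starting library): at most `X ^ (0.306 - η)` poor intervals of length `≥ X ^ (1/2 - η)` up
to `X`.
-/

set_option autoImplicit false

namespace Pool.Agent.T9h59.OP

/-- all but `O(X ^ (0.612 + δ))` of the `x ≤ X` satisfy `Opp c`: at least `c x / log x` primes in both intervals -/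
theorem count : ∃ c : ℝ, 0 < c ∧ ∀ δ : ℝ, 0 < δ → ∃ C : ℝ, ∀ X : ℕ, 1 ≤ X →
    ({x : ℕ | 1 ≤ x ∧ x ≤ X ∧ True ∧ ¬ Opp c x}.ncard : ℝ) ≤ C * (X : ℝ) ^ (0.612 + δ) := by
  obtain ⟨c, hc, h⟩ := count_of (e0 := 0.306) (by norm_num) Pool.Agent.Q278.KT.mainp_half
  refine ⟨c, hc, fun δ hδ => ?_⟩
  obtain ⟨C, hC⟩ := h δ hδ
  refine ⟨C, fun X hX => (hC X hX).trans (le_of_eq ?_)⟩
  norm_num

end Pool.Agent.T9h59.OP
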